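import Pool.Agent.P8H14.CN.Stm

/-!
# CN: almost all primes
-/

set_option autoImplicit false

namespace Pool.Agent.P8H85.CN

open Finset Filter NumberField Pool.Agent.H38R2.CG Pool.Agent.P8H14.CN
open scoped Classical

/-- Chebyshev: `X / (2 log X) ≤ π(X)` for large `X` -/
theorem pi_ge : ∀ᶠ X : ℕ in atTop, (X : ℝ) ≤ 2 * Real.log X * (Nat.primeCounting X : ℝ) := by
  have tX : Tendsto (fun X : ℕ => (X : ℝ)) atTop atTop := tendsto_natCast_atTop_atTop
  have hlo := (Real.isLittleO_log_id_atTop.bound (show (0 : ℝ) < 1 / 32 by norm_num))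
  filter_upwards [tX.eventually hlo, eventually_ge_atTop 32] with X h1 h32
  have hX : (32 : ℝ) ≤ X := by exact_mod_cast h32
  have h2 := Chebyshev.psi_ge X
  have h3 := Chebyshev.psi_le_primeCounting_mul_log X
  have hl : 0 ≤ Real.log (X : ℝ) := Real.log_nonneg (by linarith)
  rw [Real.norm_of_nonneg hl, id, Real.norm_of_nonneg (by linarith)] at h1
  have h4 : Real.log ((X : ℝ) + 1) ≤ Real.log X + Real.log 2 := by
    rw [← Real.log_mul (by linarith) (by norm_num)]
    exact Real.log_le_log (by linarith) (by linarith)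
  have h5 : (0.69 : ℝ) < Real.log 2 := by
    have := Real.log_two_gt_d9
    linarith
  have h6 : Real.log 2 < (0.7 : ℝ) := by
    have := Real.log_two_lt_d9
    linarith
  have h7 : 0.69 * (X : ℝ) ≤ X * Real.log 2 := by nlinarith
  linarith

theorem card_primes (X : ℕ) : ((Icc 2 X).filter Nat.Prime).card = Nat.primeCounting X := by
  rw [Nat.primeCounting, Nat.primeCounting', Nat.count_eq_card_filter_range]
  congr 1
  ext p
  simp only [mem_filter, mem_Icc, mem_range]
  constructor
  · rintro ⟨⟨_, h2⟩, h3⟩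
    exact ⟨by omega, h3⟩
  · rintro ⟨h1, h2⟩
    exact ⟨⟨h2.two_le, by omega⟩, h2⟩

theorem clp : S_FIN → S_CLP := by
  intro hF δ h0 h1
  obtain ⟨M, hM⟩ := hF δ h0 h1
  have hlim : Tendsto (fun X : ℕ => |M| * 2 * (Real.log X * Real.exp (-(Real.log X ^ (δ / 16)))))
      atTop (nhds 0) := by
    have hd : 0 < δ / 16 := by positivity
    have h2 := tendsto_rpow_mul_exp_neg_mul_atTop_nhds_zero (16 / δ) 1 one_pos
    have h3 : Tendsto (fun X : ℕ => Real.log X ^ (δ / 16)) atTop atTop :=
      (tendsto_rpow_atTop hd).comp (Real.tendsto_log_atTop.comp tendsto_natCast_atTop_atTop)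
    have h4 := (h2.comp h3).const_mul (|M| * 2)
    rw [mul_zero] at h4
    refine h4.congr' ?_
    filter_upwards [eventually_ge_atTop 1] with X hX
    have hl : 0 ≤ Real.log (X : ℝ) := Real.log_nonneg (by exact_mod_cast hX)
    simp only [Function.comp]
    rw [← Real.rpow_mul hl]
    have h5 : δ / 16 * (16 / δ) = 1 := by field_simp
    rw [h5, Real.rpow_one, neg_one_mul]
  refine squeeze_zero' (Eventually.of_forall fun X => by positivity) ?_ hlim
  filter_upwards [pi_ge, eventually_ge_atTop 3] with X hpi h3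
  have hX : (3 : ℝ) ≤ X := by exact_mod_cast h3
  have hl : 0 < Real.log (X : ℝ) := Real.log_pos (by linarith)
  have hE : 0 < Real.exp (-(Real.log X ^ (δ / 16))) := Real.exp_pos _
  rw [card_primes]
  have hp : 0 < (Nat.primeCounting X : ℝ) := by
    by_contra hcon
    have : (Nat.primeCounting X : ℝ) ≤ 0 := not_lt.1 hcon
    nlinarith
  rw [div_le_iff₀ hp]
  have hsub : (((Icc 2 X).filter (fun p => p.Prime ∧ ¬ GoodC δ p)).card : ℝ) ≤
      (((Icc 2 X).filter (fun d => Squarefree d ∧ ¬ GoodC δ d)).card : ℝ) := by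
    have : ((Icc 2 X).filter (fun p => p.Prime ∧ ¬ GoodC δ p)).card ≤
        ((Icc 2 X).filter (fun d => Squarefree d ∧ ¬ GoodC δ d)).card := by
      refine Finset.card_le_card fun p hp => ?_
      rw [mem_filter] at hp ⊢
      exact ⟨hp.1, hp.2.1.prime.squarefree, hp.2.2⟩
    exact_mod_cast this
  refine hsub.trans ((hM X (by omega)).trans ?_)
  have hMM : M ≤ |M| := le_abs_self M
  calc M * X * Real.exp (-(Real.log X ^ (δ / 16)))
      ≤ |M| * X * Real.exp (-(Real.log X ^ (δ / 16))) := by gcongr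
    _ ≤ |M| * (2 * Real.log X * (Nat.primeCounting X : ℝ)) * Real.exp (-(Real.log X ^ (δ / 16))) := by
        gcongr
    _ = _ := by ring

end Pool.Agent.P8H85.CN
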