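import Pool.Agent.P8H14.CN.Stm2
import Pool.Agent.P8H14.CN.Wd
import Pool.Agent.P8H85.CN.Clp

/-!
# CN: a popular class number
-/

set_option autoImplicit false

namespace Pool.Agent.P8H85.CN

open Finset Filter NumberField Pool.Agent.H38R2.CG Pool.Agent.P8H14.CN
open scoped Classical

theorem hq_field {d : ℕ} (hd : 1 < d) (hs : Squarefree d) : ∃ (K : Type) (_ : Field K) (_ : NumberField K),
    Module.finrank ℚ K = 2 ∧ (∃ x : K, x ^ 2 = (d : K)) ∧ classNumber K = hq d := by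
  have h : {n : ℕ | ∃ (K : Type) (_ : Field K) (_ : NumberField K),
    Module.finrank ℚ K = 2 ∧ (∃ x : K, x ^ 2 = (d : K)) ∧ classNumber K = n}.Nonempty := by
    obtain ⟨K, i1, i2, h1, h2⟩ := Pool.Agent.P8H14.CN.exists_field hd hs
    exact ⟨classNumber K, K, i1, i2, h1, h2, rfl⟩
  exact Nat.sInf_mem h

theorem good_bound {δ : ℝ} (hδ2 : δ < 1 / 2) (hδ : 0 < δ) {X p : ℕ} (hX : 2 ≤ X) (hp : p.Prime) (hpX : p ≤ X)
    (hg : GoodC δ p) (hc1 : √(X : ℝ) < p) :
    1 ≤ hq p ∧ (hq p : ℝ) ≤ 3 * √(X : ℝ) / Real.log X ^ (3 / 2 - δ) := by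
  have hX1 : (1 : ℝ) < X := by exact_mod_cast (by omega : 1 < X)
  have hl : 0 < Real.log X := Real.log_pos hX1
  have hpX' : (p : ℝ) ≤ X := by exact_mod_cast hpX
  have hs : 0 < Real.sqrt X := Real.sqrt_pos.mpr (by linarith)
  have hsp : Real.sqrt p ≤ Real.sqrt X := Real.sqrt_le_sqrt hpX'
  obtain ⟨K, i1, i2, hK1, hK2, hK3⟩ := hq_field hp.one_lt hp.prime.squarefree
  have h3 := hg K hK1 hK2
  rw [hK3] at h3
  refine ⟨?_, ?_⟩
  · rw [← hK3]
    exact Nat.one_le_iff_ne_zero.2 (classNumber_ne_zero K)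
  have h4 : Real.log X / 2 ≤ Real.log p := by
    rw [← Real.log_sqrt (by linarith)]
    exact Real.log_le_log hs hc1.le
  have h5 : (Real.log X / 2) ^ (3 / 2 - δ) ≤ Real.log p ^ (3 / 2 - δ) :=
    Real.rpow_le_rpow (by linarith) h4 (by linarith)
  have h6 : (Real.log X / 2) ^ (3 / 2 - δ) = Real.log X ^ (3 / 2 - δ) / 2 ^ (3 / 2 - δ) :=
    Real.div_rpow hl.le (by norm_num) _
  have h7 : (2 : ℝ) ^ (3 / 2 - δ) ≤ 3 := by
    calc (2 : ℝ) ^ (3 / 2 - δ) ≤ (2 : ℝ) ^ (3 / 2 : ℝ) :=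
          Real.rpow_le_rpow_of_exponent_le (by norm_num) (by linarith)
      _ = √8 := by
          rw [Real.sqrt_eq_rpow, show (8 : ℝ) = 2 ^ (3 : ℝ) by norm_num, ← Real.rpow_mul (by norm_num)]
          norm_num
      _ ≤ 3 := by
          rw [Real.sqrt_le_left (by norm_num)]
          norm_num
  have h8 : 0 < (2 : ℝ) ^ (3 / 2 - δ) := by positivity
  have h9 : 0 < Real.log X ^ (3 / 2 - δ) := Real.rpow_pos_of_pos hl _
  have h10 : Real.log X ^ (3 / 2 - δ) / 3 ≤ Real.log p ^ (3 / 2 - δ) := by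
    refine le_trans ?_ (h6 ▸ h5)
    exact div_le_div_of_nonneg_left h9.le h8 h7
  refine h3.trans ?_
  rw [show 3 * Real.sqrt X / Real.log X ^ (3 / 2 - δ) = Real.sqrt X / (Real.log X ^ (3 / 2 - δ) / 3) by
    field_simp]
  exact div_le_div₀ hs.le hsp (by positivity) h10

theorem pop : S_CLP → S_POP := by
  intro hclp δ hδ hδ2
  have h1 := (hclp δ hδ hδ2).eventually (gt_mem_nhds (show (0 : ℝ) < 1 / 4 by norm_num))
  have tX : Tendsto (fun X : ℕ => (X : ℝ)) atTop atTop := tendsto_natCast_atTop_atTop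
  have hlo := tX.eventually ((isLittleO_log_rpow_atTop (show (0 : ℝ) < 1 / 2 by norm_num)).bound
    (show (0 : ℝ) < 1 / 8 by norm_num))
  obtain ⟨X₀, hX₀⟩ := eventually_atTop.1 ((h1.and pi_ge).and (hlo.and (eventually_ge_atTop 3)))
  refine ⟨1 / 12, by norm_num, X₀, fun X hX => ?_⟩
  obtain ⟨⟨h2, h3⟩, h4, h5⟩ := hX₀ X hX
  have hX3 : (3 : ℝ) ≤ X := by exact_mod_cast h5
  have hl : 0 < Real.log (X : ℝ) := Real.log_pos (by linarith)
  have hs : 0 < √(X : ℝ) := Real.sqrt_pos.2 (by linarith)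
  have hss : √(X : ℝ) * √(X : ℝ) = X := Real.mul_self_sqrt (by linarith)
  rw [Real.norm_of_nonneg hl.le, ← Real.sqrt_eq_rpow, Real.norm_of_nonneg hs.le] at h4
  set P := (Icc 2 X).filter Nat.Prime with hP
  set B := (Icc 2 X).filter (fun p => p.Prime ∧ ¬ GoodC δ p) with hB
  have hPc : (X : ℝ) ≤ 2 * Real.log X * (P.card : ℝ) := by
    rw [hP, card_primes]; exact h3
  have hP0 : 0 < (P.card : ℝ) := by
    by_contra hcon
    have h6 : (P.card : ℝ) ≤ 0 := not_lt.1 hcon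
    have : 2 * Real.log X * (P.card : ℝ) ≤ 0 := mul_nonpos_of_nonneg_of_nonpos (by positivity) h6
    linarith
  have hB4 : (B.card : ℝ) < 1 / 4 * P.card := by
    rwa [div_lt_iff₀ hP0] at h2
  set S := (range (⌊√(X : ℝ)⌋₊ + 1)).filter (fun p => 1 ≤ p) with hS
  have hSc : (S.card : ℝ) ≤ √(X : ℝ) := by
    have : S ⊆ Icc 1 ⌊√(X : ℝ)⌋₊ := by
      intro p hp
      rw [hS, mem_filter, mem_range] at hp
      rw [mem_Icc]
      omega
    have h6 := card_le_card this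
    rw [Nat.card_Icc] at h6
    have h7 : (S.card : ℝ) ≤ (⌊√(X : ℝ)⌋₊ : ℝ) := by exact_mod_cast (by omega : S.card ≤ ⌊√(X : ℝ)⌋₊)
    exact h7.trans (Nat.floor_le hs.le)
  set G := (Icc 2 X).filter (fun p => p.Prime ∧ GoodC δ p ∧ √(X : ℝ) < p) with hG
  have hsub : P ⊆ G ∪ (B ∪ S) := by
    intro p hp
    rw [hP, mem_filter] at hp
    rw [mem_union, mem_union]
    by_cases hg : GoodC δ p
    · by_cases hc : √(X : ℝ) < p
      · left
        rw [hG, mem_filter]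
        exact ⟨hp.1, hp.2, hg, hc⟩
      · right; right
        rw [hS, mem_filter, mem_range]
        refine ⟨?_, hp.2.one_lt.le⟩
        have : p ≤ ⌊√(X : ℝ)⌋₊ := Nat.le_floor (not_lt.1 hc)
        omega
    · right; left
      rw [hB, mem_filter]
      exact ⟨hp.1, hp.2, hg⟩
  have hcard : (P.card : ℝ) ≤ G.card + (B.card + S.card) := by
    have h6 := card_le_card hsub
    have h7 := card_union_le G (B ∪ S)
    have h8 := card_union_le B S
    exact_mod_cast (by omega : P.card ≤ G.card + (B.card + S.card))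
  have hGc : (X : ℝ) / (4 * Real.log X) ≤ G.card := by
    have h6 : √(X : ℝ) ≤ X / (8 * Real.log X) := by
      rw [le_div_iff₀ (by positivity)]
      nlinarith
    have h7 : (X : ℝ) / (2 * Real.log X) ≤ P.card := by
      rw [div_le_iff₀ (by positivity)]
      linarith
    have h8 : (X : ℝ) / (8 * Real.log X) = X / Real.log X / 8 := by
      field_simp
    have h9 : (X : ℝ) / (2 * Real.log X) = X / Real.log X / 2 := by
      field_simp
    have h10 : (X : ℝ) / (4 * Real.log X) = X / Real.log X / 4 := by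
      field_simp
    rw [h8] at h6
    rw [h9] at h7
    rw [h10]
    linarith
  set T : ℝ := 3 * √(X : ℝ) / Real.log X ^ (3 / 2 - δ) with hT
  have hlp : 0 < Real.log (X : ℝ) ^ (3 / 2 - δ) := Real.rpow_pos_of_pos hl _
  have hT0 : 0 < T := by positivity
  have hmaps : ∀ p ∈ G, hq p ∈ Icc 1 ⌊T⌋₊ := by
    intro p hp
    rw [hG, mem_filter, mem_Icc] at hp
    obtain ⟨ha, hb⟩ := good_bound hδ2 hδ (by omega) hp.2.1 hp.1.2 hp.2.2.1 hp.2.2.2
    rw [mem_Icc]
    exact ⟨ha, Nat.le_floor hb⟩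
  have hGne : G.Nonempty := by
    rw [← card_pos]
    have : 0 < (G.card : ℝ) := lt_of_lt_of_le (by positivity) hGc
    exact_mod_cast this
  have hne : (Icc 1 ⌊T⌋₊).Nonempty := by
    obtain ⟨p, hp⟩ := hGne
    exact ⟨_, hmaps p hp⟩
  have hb : (Icc 1 ⌊T⌋₊).card • (1 / 12 * √(X : ℝ) * Real.log X ^ (1 / 2 - δ)) ≤ (G.card : ℝ) := by
    rw [nsmul_eq_mul, Nat.card_Icc, Nat.add_sub_cancel]
    refine le_trans ?_ hGc
    have h6 : (⌊T⌋₊ : ℝ) ≤ T := Nat.floor_le hT0.le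
    refine (mul_le_mul_of_nonneg_right h6 (by positivity)).trans ?_
    have h7 : Real.log (X : ℝ) ^ (3 / 2 - δ) = Real.log (X : ℝ) * Real.log (X : ℝ) ^ (1 / 2 - δ) := by
      rw [← Real.rpow_one_add' hl.le (by linarith)]
      congr 1
      ring
    have hl2 : 0 < Real.log (X : ℝ) ^ (1 / 2 - δ) := Real.rpow_pos_of_pos hl _
    apply le_of_eq
    rw [hT, h7]
    field_simp
    linarith
  obtain ⟨y, hy, hy2⟩ := exists_le_card_fiber_of_nsmul_le_card_of_maps_to hmaps hne hb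
  rw [mem_Icc] at hy
  refine ⟨y, hy.1, (Nat.le_floor_iff hT0.le).1 hy.2, hy2.trans ?_⟩
  have : (G.filter (fun p => hq p = y)).card ≤ ((Icc 2 X).filter (fun p => p.Prime ∧ hq p = y)).card := by
    apply card_le_card
    intro p hp
    rw [mem_filter, hG, mem_filter] at hp
    rw [mem_filter]
    exact ⟨hp.1.1, hp.1.2.1, hp.2⟩
  exact_mod_cast this

end Pool.Agent.P8H85.CN
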