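import Pool.Agent.P8H14.CN.Stm

/-!
# CN: the trivial bound
-/

set_option autoImplicit false

namespace Pool.Agent.P8H85.CN

open Finset Filter NumberField Pool.Agent.H38R2.CG Pool.Agent.P8H14.CN
open scoped Classical

theorem dsc_fund (d : ℕ) (hd : 1 < d) (hs : Squarefree d) : IsFund (dsc d) := by
  unfold dsc IsFund
  have h4 : d % 4 ≠ 0 := by
    intro h
    have h1 : 2 * 2 ∣ d := by omega
    have := hs 2 h1
    rw [Nat.isUnit_iff] at this
    omega
  by_cases h : d % 4 = 1
  · rw [if_pos h]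
    exact ⟨hd, Or.inl ⟨h, hs⟩⟩
  · rw [if_neg h]
    exact ⟨by omega, Or.inr ⟨d, rfl, by omega, hs⟩⟩

theorem dsc_bds (d : ℕ) (hd : 1 < d) : 5 ≤ dsc d ∧ dsc d ≤ 4 * d := by
  unfold dsc
  split_ifs <;> omega

theorem trv : StmtCNF → StmtREG → P_N3a → S_MUL → S_TRV := by
  intro hC hR hN hM
  obtain ⟨C, hC0, hN⟩ := hN
  obtain ⟨-, hchi, -, -⟩ := hM
  set r : ℝ := Real.log ((1 + √5) / 2) with hr
  have hr0 : 0 < r := by
    apply Real.log_pos
    have : (1 : ℝ) < √5 := by
      rw [show (1 : ℝ) = √1 by simp]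
      exact Real.sqrt_lt_sqrt (by norm_num) (by norm_num)
    linarith
  refine ⟨3 * (C + 2) / r, by positivity, fun K _ _ d hd hs hf hx => ?_⟩
  have hcn := hC K d hd hs hf hx
  obtain ⟨t, u, ht, hu, -, hreg⟩ := hR K d hd hs hf hx
  have hfund := dsc_fund d hd hs
  obtain ⟨hD5, hD4⟩ := dsc_bds d hd
  set D := dsc d with hDdef
  have hDR : (5 : ℝ) ≤ D := by exact_mod_cast hD5
  have hDR4 : (D : ℝ) ≤ 4 * d := by exact_mod_cast hD4
  have hdR : (2 : ℝ) ≤ d := by exact_mod_cast hd
  -- the regulator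
  have hreg' : r ≤ Units.regulator K := by
    rw [hreg, hr]
    apply Real.log_le_log (by positivity)
    have h1 : (1 : ℝ) ≤ t := by exact_mod_cast ht
    have h2 : (1 : ℝ) ≤ u := by exact_mod_cast hu
    have h3 : √5 ≤ √(D : ℝ) := Real.sqrt_le_sqrt hDR
    have h4 : 0 ≤ √(D : ℝ) := Real.sqrt_nonneg _
    have h5 : √(D : ℝ) ≤ u * √(D : ℝ) := by nlinarith
    linarith
  -- L(1)
  have hL : Lone D ≤ (C + 2) * Real.log D := by
    have h1 := (abs_le.1 (hN D hfund D (by omega))).2
    have h2 : ∑ n ∈ Icc 1 D, (chi D n : ℝ) / n ≤ 1 + Real.log D := by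
      have h3 : ∑ n ∈ Icc 1 D, (chi D n : ℝ) / n ≤ ∑ n ∈ Icc 1 D, (1 : ℝ) / n := by
        refine Finset.sum_le_sum fun n _ => ?_
        have h4 : (chi D n : ℝ) ≤ 1 := by
          exact_mod_cast (abs_le.1 (hchi D n)).2
        gcongr
      refine h3.trans ?_
      have h5 := harmonic_le_one_add_log D
      rw [harmonic_eq_sum_Icc] at h5
      push_cast at h5
      simpa [one_div] using h5
    have hlog1 : 1 ≤ Real.log D := by
      rw [Real.le_log_iff_exp_le (by linarith)]
      have := Real.exp_one_lt_d9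
      linarith
    have h6 : C * √(D : ℝ) * Real.log D / D ≤ C * Real.log D := by
      rw [div_le_iff₀ (by linarith)]
      have h7 : √(D : ℝ) ≤ D := by
        rw [Real.sqrt_le_left (by linarith)]
        nlinarith
      have h8 : 0 ≤ C * Real.log D := by positivity
      nlinarith
    linarith
  -- logarithms
  have hlogD : Real.log D ≤ 3 * Real.log d := by
    have h1 : Real.log D ≤ Real.log (4 * d) := Real.log_le_log (by linarith) hDR4
    rw [Real.log_mul (by norm_num) (by linarith)] at h1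
    have h2 : Real.log 4 ≤ 2 * Real.log d := by
      have h3 : Real.log 4 = 2 * Real.log 2 := by
        rw [show (4 : ℝ) = 2 ^ 2 by norm_num, Real.log_pow]
        norm_num
      have h4 : Real.log 2 ≤ Real.log d := Real.log_le_log (by norm_num) hdR
      linarith
    linarith
  have hsqrt : √(D : ℝ) ≤ 2 * √(d : ℝ) := by
    rw [show (2 : ℝ) * √(d : ℝ) = √(4 * d) by
      rw [Real.sqrt_mul (by norm_num), show (4 : ℝ) = 2 ^ 2 by norm_num, Real.sqrt_sq (by norm_num)]]
    exact Real.sqrt_le_sqrt hDR4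
  have hld : 0 ≤ Real.log (d : ℝ) := Real.log_nonneg (by linarith)
  have hlD : 0 ≤ Real.log (D : ℝ) := Real.log_nonneg (by linarith)
  have hh : (0 : ℝ) ≤ classNumber K := by positivity
  have hfin : 2 * r * (classNumber K : ℝ) ≤ (2 * √(d : ℝ)) * ((C + 2) * (3 * Real.log d)) := by
    calc 2 * r * (classNumber K : ℝ) ≤ 2 * Units.regulator K * (classNumber K : ℝ) := by gcongr
      _ = √(D : ℝ) * Lone D := hcn
      _ ≤ √(D : ℝ) * ((C + 2) * Real.log D) := by gcongr
      _ ≤ (2 * √(d : ℝ)) * ((C + 2) * (3 * Real.log d)) := by gcongr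
  rw [show 3 * (C + 2) / r * √(d : ℝ) * Real.log d = (3 * (C + 2) * √(d : ℝ) * Real.log d) / r by ring,
    le_div_iff₀ hr0]
  linarith

end Pool.Agent.P8H85.CN
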